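import Pool.Agent.X64.K9.CLow
import Pool.Agent.X64.K9.C7_0
import Pool.Agent.X64.K9.C7_60
import Pool.Agent.X64.K9.C7_120
import Pool.Agent.X64.K9.C7_180
import Pool.Agent.X64.K9.C7_240
import Pool.Agent.X64.K9.C8_0
import Pool.Agent.X64.K9.C8_200
import Pool.Agent.X64.K9.C8_400
import Pool.Agent.X64.K9.C8_600
import Pool.Agent.X64.K9.C8_800
import Pool.Agent.X64.K9.C8_1000

set_option autoImplicit false

namespace Pool.Agent.X64.K9

variable {V : Type*} [Fintype V]

theorem lev8 (hV : 8 < Fintype.card V) : LevelOK V X8 1104 8 := by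
  refine level_step (X' := X9) (N' := 0) (c := 0x3fafdbeef7bbedfafe) (by norm_num) (by omega) (level_top X9 9) ?_
  intro k hk
  by_cases h200 : k < 200
  · have := okFrom_sound _ _ _ _ _ _ _ c8_0 (k - 0) (by rw [l8_0]; omega)
    rwa [show 0 + (k - 0) = k by omega] at this
  by_cases h400 : k < 400
  · have := okFrom_sound _ _ _ _ _ _ _ c8_200 (k - 200) (by rw [l8_200]; omega)
    rwa [show 200 + (k - 200) = k by omega] at this
  by_cases h600 : k < 600
  · have := okFrom_sound _ _ _ _ _ _ _ c8_400 (k - 400) (by rw [l8_400]; omega)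
    rwa [show 400 + (k - 400) = k by omega] at this
  by_cases h800 : k < 800
  · have := okFrom_sound _ _ _ _ _ _ _ c8_600 (k - 600) (by rw [l8_600]; omega)
    rwa [show 600 + (k - 600) = k by omega] at this
  by_cases h1000 : k < 1000
  · have := okFrom_sound _ _ _ _ _ _ _ c8_800 (k - 800) (by rw [l8_800]; omega)
    rwa [show 800 + (k - 800) = k by omega] at this
  have := okFrom_sound _ _ _ _ _ _ _ c8_1000 (k - 1000) (by rw [l8_1000]; omega)
  rwa [show 1000 + (k - 1000) = k by omega] at this

theorem lev7 (hV : 8 < Fintype.card V) : LevelOK V X7 300 7 := by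
  refine level_step (X' := X8) (N' := 1104) (c := 0xfcbe6f3b9ecfa7e) (by norm_num) (by omega) (lev8 hV) ?_
  intro k hk
  by_cases h60 : k < 60
  · have := okFrom_sound _ _ _ _ _ _ _ c7_0 (k - 0) (by rw [l7_0]; omega)
    rwa [show 0 + (k - 0) = k by omega] at this
  by_cases h120 : k < 120
  · have := okFrom_sound _ _ _ _ _ _ _ c7_60 (k - 60) (by rw [l7_60]; omega)
    rwa [show 60 + (k - 60) = k by omega] at this
  by_cases h180 : k < 180
  · have := okFrom_sound _ _ _ _ _ _ _ c7_120 (k - 120) (by rw [l7_120]; omega)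
    rwa [show 120 + (k - 120) = k by omega] at this
  by_cases h240 : k < 240
  · have := okFrom_sound _ _ _ _ _ _ _ c7_180 (k - 180) (by rw [l7_180]; omega)
    rwa [show 180 + (k - 180) = k by omega] at this
  have := okFrom_sound _ _ _ _ _ _ _ c7_240 (k - 240) (by rw [l7_240]; omega)
  rwa [show 240 + (k - 240) = k by omega] at this

theorem lev6 (hV : 8 < Fintype.card V) : LevelOK V X6 64 6 := by
  refine level_step (X' := X7) (N' := 300) (c := 0x3e2f1b8ec7a3e) (by norm_num) (by omega) (lev7 hV) ?_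
  intro k hk
  have := okFrom_sound _ _ _ _ _ _ _ c6_0 (k - 0) (by rw [l6_0]; omega)
  rwa [show 0 + (k - 0) = k by omega] at this

theorem lev5 (hV : 8 < Fintype.card V) : LevelOK V X5 17 5 := by
  refine level_step (X' := X6) (N' := 64) (c := 0xf0b86c3a1e) (by norm_num) (by omega) (lev6 hV) ?_
  intro k hk
  have := okFrom_sound _ _ _ _ _ _ _ c5_0 (k - 0) (by rw [l5_0]; omega)
  rwa [show 0 + (k - 0) = k by omega] at this

theorem lev4 (hV : 8 < Fintype.card V) : LevelOK V X4 6 4 := by
  refine level_step (X' := X5) (N' := 17) (c := 0x382c1a0e) (by norm_num) (by omega) (lev5 hV) ?_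
  intro k hk
  have := okFrom_sound _ _ _ _ _ _ _ c4_0 (k - 0) (by rw [l4_0]; omega)
  rwa [show 0 + (k - 0) = k by omega] at this

theorem lev3 (hV : 8 < Fintype.card V) : LevelOK V X3 2 3 := by
  refine level_step (X' := X4) (N' := 6) (c := 0xc0a06) (by norm_num) (by omega) (lev4 hV) ?_
  intro k hk
  have := okFrom_sound _ _ _ _ _ _ _ c3_0 (k - 0) (by rw [l3_0]; omega)
  rwa [show 0 + (k - 0) = k by omega] at this

theorem lev2 (hV : 8 < Fintype.card V) : LevelOK V X2 1 2 := by
  refine level_step (X' := X3) (N' := 2) (c := 0x202) (by norm_num) (by omega) (lev3 hV) ?_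
  intro k hk
  have := okFrom_sound _ _ _ _ _ _ _ c2_0 (k - 0) (by rw [l2_0]; omega)
  rwa [show 0 + (k - 0) = k by omega] at this

theorem lev1 (hV : 8 < Fintype.card V) : LevelOK V X1 1 1 := by
  refine level_step (X' := X2) (N' := 1) (c := 0x0) (by norm_num) (by omega) (lev2 hV) ?_
  intro k hk
  have := okFrom_sound _ _ _ _ _ _ _ c1_0 (k - 0) (by rw [l1_0]; omega)
  rwa [show 0 + (k - 0) = k by omega] at this

/-- Two graphs on at least nine vertices that together contain all pairs cannot both be without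
`K₅`- and `K₃,₃`-minor. -/
theorem not_both_good (hV : 8 < Fintype.card V) (H K : SimpleGraph V) (hH : Good H) (hK : Good K)
    (hcov : ∀ x y, x ≠ y → H.Adj x y ∨ K.Adj x y) : False := by
  have hne : Nonempty V := Fintype.card_pos_iff.1 (by omega)
  refine lev1 hV 0 (by norm_num) H K hH hK hcov (fun _ => hne.some) ?_
  intro j hj i hij
  omega

end Pool.Agent.X64.K9
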