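import Pool.Agent.X64.K9.Coord
import Pool.Agent.X64.K9.Main

set_option autoImplicit false

namespace Pool.Agent.X64.K9

/-! ### The format of the frozen statement -/

/-- a drawing on two planes -/
def IsDr {V : Type} (G : SimpleGraph V) (c : V → V → Fin 2) (p : Fin 2 → V → ℂ)
    (γ : Fin 2 → V → V → ℝ → ℂ) : Prop :=
  (∀ u v : V, G.Adj u v → c u v = c v u) ∧
  (∀ i : Fin 2, Function.Injective (p i)) ∧
  (∀ i : Fin 2, ∀ u v : V, G.Adj u v → c u v = i →
    ContinuousOn (γ i u v) (Set.Icc (0:ℝ) 1) ∧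
    Set.InjOn (γ i u v) (Set.Icc (0:ℝ) 1) ∧
    γ i u v 0 = p i u ∧ γ i u v 1 = p i v ∧
    (∀ t : ℝ, 0 ≤ t → t ≤ 1 → γ i v u t = γ i u v (1 - t)) ∧
    ∀ t : ℝ, 0 < t → t < 1 → ∀ w : V, γ i u v t ≠ p i w)

/-- the set of crossings -/
def Xs {V : Type} (G : SimpleGraph V) (c : V → V → Fin 2) (γ : Fin 2 → V → V → ℝ → ℂ) :
    Set (Fin 2 × V × V × V × V × ℂ) :=
  {x : Fin 2 × V × V × V × V × ℂ |
    G.Adj x.2.1 x.2.2.1 ∧ G.Adj x.2.2.2.1 x.2.2.2.2.1 ∧
    c x.2.1 x.2.2.1 = x.1 ∧ c x.2.2.2.1 x.2.2.2.2.1 = x.1 ∧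
    ¬ (x.2.1 = x.2.2.2.1 ∧ x.2.2.1 = x.2.2.2.2.1) ∧
    ¬ (x.2.1 = x.2.2.2.2.1 ∧ x.2.2.1 = x.2.2.2.1) ∧
    (∃ t : ℝ, 0 < t ∧ t < 1 ∧ γ x.1 x.2.1 x.2.2.1 t = x.2.2.2.2.2) ∧
    (∃ t : ℝ, 0 < t ∧ t < 1 ∧ γ x.1 x.2.2.2.1 x.2.2.2.2.1 t = x.2.2.2.2.2)}

/-- without crossings in plane `i` the graph of plane `i` is drawn without crossings -/
lemma PD_of_plane {V : Type} {G : SimpleGraph V} {c : V → V → Fin 2} {p : Fin 2 → V → ℂ}
    {γ : Fin 2 → V → V → ℝ → ℂ} (h : IsDr G c p γ) (i : Fin 2)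
    (hx : ∀ x ∈ Xs G c γ, x.1 ≠ i) :
    PD (SimpleGraph.fromRel (fun u v => G.Adj u v ∧ c u v = i)) := by
  obtain ⟨hc, hp, hγ⟩ := h
  have hadj : ∀ u v, (SimpleGraph.fromRel (fun u v => G.Adj u v ∧ c u v = i)).Adj u v →
      G.Adj u v ∧ c u v = i := by
    intro u v huv
    rw [SimpleGraph.fromRel_adj] at huv
    rcases huv.2 with h | h
    · exact h
    · refine ⟨h.1.symm, ?_⟩
      rw [hc u v h.1.symm]
      exact h.2
  refine ⟨p i, hp i, fun u v => γ i u v '' Set.Icc 0 1, ?_, ?_, ?_⟩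
  · intro u v huv
    obtain ⟨h1, h2⟩ := hadj u v huv
    obtain ⟨k1, k2, k3, k4, _, _⟩ := hγ i u v h1 h2
    have hpc : IsPathConnected (γ i u v '' Set.Icc 0 1) :=
      ((convex_Icc (0:ℝ) 1).isPathConnected ⟨0, by simp⟩).image' k1
    have := hpc.joinedIn (γ i u v 0) ⟨0, by simp, rfl⟩ (γ i u v 1) ⟨1, by simp, rfl⟩
    rwa [k3, k4] at this
  · intro u v x y huv hxy n1 n2 n3 n4
    obtain ⟨h1, h2⟩ := hadj u v huv
    obtain ⟨h3, h4⟩ := hadj x y hxy
    obtain ⟨_, _, k3, k4, _, k6⟩ := hγ i u v h1 h2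
    obtain ⟨_, _, l3, l4, _, l6⟩ := hγ i x y h3 h4
    rw [Set.disjoint_left]
    rintro z ⟨s, hs, rfl⟩ ⟨t, ht, hst⟩
    -- end cases
    rcases eq_or_lt_of_le hs.1 with hs0 | hs0
    · rw [← hs0, k3] at hst
      rcases eq_or_lt_of_le ht.1 with ht0 | ht0
      · rw [← ht0, l3] at hst
        exact n1 (hp i hst).symm
      · rcases eq_or_lt_of_le ht.2 with ht1 | ht1
        · rw [ht1, l4] at hst
          exact n2 (hp i hst).symm
        · exact l6 t ht0 ht1 u hst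
    rcases eq_or_lt_of_le hs.2 with hs1 | hs1
    · rw [hs1, k4] at hst
      rcases eq_or_lt_of_le ht.1 with ht0 | ht0
      · rw [← ht0, l3] at hst
        exact n3 (hp i hst).symm
      · rcases eq_or_lt_of_le ht.2 with ht1 | ht1
        · rw [ht1, l4] at hst
          exact n4 (hp i hst).symm
        · exact l6 t ht0 ht1 v hst
    rcases eq_or_lt_of_le ht.1 with ht0 | ht0
    · rw [← ht0, l3] at hst
      exact k6 s hs0 hs1 x hst.symm
    rcases eq_or_lt_of_le ht.2 with ht1 | ht1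
    · rw [ht1, l4] at hst
      exact k6 s hs0 hs1 y hst.symm
    refine hx (i, u, v, x, y, γ i u v s) ?_ rfl
    refine ⟨h1, h3, h2, h4, ?_, ?_, ⟨s, hs0, hs1, rfl⟩, ⟨t, ht0, ht1, hst⟩⟩
    · rintro ⟨e1, _⟩
      exact n1 e1
    · rintro ⟨e1, _⟩
      exact n2 e1
  · rintro u v w huv hwu hwv ⟨s, hs, hsw⟩
    obtain ⟨h1, h2⟩ := hadj u v huv
    obtain ⟨_, _, k3, k4, _, k6⟩ := hγ i u v h1 h2
    rcases eq_or_lt_of_le hs.1 with hs0 | hs0
    · rw [← hs0, k3] at hsw
      exact hwu (hp i hsw).symm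
    rcases eq_or_lt_of_le hs.2 with hs1 | hs1
    · rw [hs1, k4] at hsw
      exact hwv (hp i hsw).symm
    exact k6 s hs0 hs1 w hsw

/-- the eight descriptions of one crossing -/
def tup {V : Type} (a b c d : V) : Fin 8 → V × V × V × V :=
  ![(a, b, c, d), (b, a, c, d), (a, b, d, c), (b, a, d, c),
    (c, d, a, b), (d, c, a, b), (c, d, b, a), (d, c, b, a)]

lemma tup_inj {V : Type} {a b c d : V} (h1 : a ≠ b) (h2 : c ≠ d) (h3 : ¬ (a = c ∧ b = d))
    (h4 : ¬ (a = d ∧ b = c)) : Function.Injective (tup a b c d) := by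
  intro k l hkl
  fin_cases k <;> fin_cases l <;> first
    | rfl
    | (exfalso
       simp only [tup, Prod.mk.injEq] at hkl
       simp at hkl
       obtain ⟨e1, e2, e3, e4⟩ := hkl
       subst_vars
       simp_all)

lemma tup_mem {V : Type} {G : SimpleGraph V} {c : V → V → Fin 2} {p : Fin 2 → V → ℂ}
    {γ : Fin 2 → V → V → ℝ → ℂ} (h : IsDr G c p γ) {i : Fin 2} {u v x y : V} {z : ℂ}
    (hx : (i, u, v, x, y, z) ∈ Xs G c γ) (k : Fin 8) :
    (i, (tup u v x y k).1, (tup u v x y k).2.1, (tup u v x y k).2.2.1, (tup u v x y k).2.2.2, z)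
      ∈ Xs G c γ := by
  obtain ⟨hc, hp, hγ⟩ := h
  -- the two basic symmetries
  have sw : ∀ u v x y, (i, u, v, x, y, z) ∈ Xs G c γ → (i, x, y, u, v, z) ∈ Xs G c γ := by
    rintro u v x y ⟨h1, h2, h3, h4, h5, h6, h7, h8⟩
    exact ⟨h2, h1, h4, h3, fun h => h5 ⟨h.1.symm, h.2.symm⟩, fun h => h6 ⟨h.2.symm, h.1.symm⟩,
      h8, h7⟩
  have rv : ∀ u v x y, (i, u, v, x, y, z) ∈ Xs G c γ → (i, v, u, x, y, z) ∈ Xs G c γ := by
    rintro u v x y ⟨h1, h2, h3, h4, h5, h6, h7, h8⟩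
    obtain ⟨t, ht0, ht1, ht⟩ := h7
    have hrev := (hγ i u v h1 h3).2.2.2.2.1
    refine ⟨h1.symm, h2, ?_, h4, fun h => h6 ⟨h.2, h.1⟩, fun h => h5 ⟨h.2, h.1⟩,
      ⟨1 - t, by linarith, by linarith, ?_⟩, h8⟩
    · show c v u = i
      rw [← hc u v h1]
      exact h3
    · show γ i v u (1 - t) = z
      rw [hrev (1 - t) (by linarith) (by linarith), sub_sub_cancel]
      exact ht
  fin_cases k
  · exact hx
  · exact rv _ _ _ _ hx
  · exact sw _ _ _ _ (rv _ _ _ _ (sw _ _ _ _ hx))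
  · exact rv _ _ _ _ (sw _ _ _ _ (rv _ _ _ _ (sw _ _ _ _ hx)))
  · exact sw _ _ _ _ hx
  · exact rv _ _ _ _ (sw _ _ _ _ hx)
  · exact sw _ _ _ _ (rv _ _ _ _ hx)
  · exact rv _ _ _ _ (sw _ _ _ _ (rv _ _ _ _ hx))

/-- if both planes have a crossing, there are at least 16 tuples -/
lemma sixteen {V : Type} {G : SimpleGraph V} {c : V → V → Fin 2} {p : Fin 2 → V → ℂ}
    {γ : Fin 2 → V → V → ℝ → ℂ} (h : IsDr G c p γ) (hfin : (Xs G c γ).Finite)
    (hx : ∀ i : Fin 2, ∃ x ∈ Xs G c γ, x.1 = i) : 16 ≤ (Xs G c γ).ncard := by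
  choose x hxm hxi using hx
  let f : Fin 2 × Fin 8 → Fin 2 × V × V × V × V × ℂ := fun q =>
    (q.1, (tup (x q.1).2.1 (x q.1).2.2.1 (x q.1).2.2.2.1 (x q.1).2.2.2.2.1 q.2).1,
      (tup (x q.1).2.1 (x q.1).2.2.1 (x q.1).2.2.2.1 (x q.1).2.2.2.2.1 q.2).2.1,
      (tup (x q.1).2.1 (x q.1).2.2.1 (x q.1).2.2.2.1 (x q.1).2.2.2.2.1 q.2).2.2.1,
      (tup (x q.1).2.1 (x q.1).2.2.1 (x q.1).2.2.2.1 (x q.1).2.2.2.2.1 q.2).2.2.2,
      (x q.1).2.2.2.2.2)
  have hf : Function.Injective f := by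
    rintro ⟨i, k⟩ ⟨j, l⟩ hkl
    have hij : i = j := congrArg Prod.fst hkl
    subst hij
    obtain ⟨h1, h2, h3, h4, h5, h6, _, _⟩ := hxm i
    have h7 := tup_inj h1.ne h2.ne h5 h6
    simp only [f, Prod.mk.injEq, true_and, and_true] at hkl
    have := h7 (Prod.ext hkl.1 (Prod.ext hkl.2.1 (Prod.ext hkl.2.2.1 hkl.2.2.2)))
    rw [this]
  have hmem : Set.range f ⊆ Xs G c γ := by
    rintro _ ⟨⟨i, k⟩, rfl⟩
    have h0 : (i, (x i).2.1, (x i).2.2.1, (x i).2.2.2.1, (x i).2.2.2.2.1, (x i).2.2.2.2.2)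
        ∈ Xs G c γ := by
      have := hxm i
      rwa [show x i = (i, (x i).2.1, (x i).2.2.1, (x i).2.2.2.1, (x i).2.2.2.2.1,
        (x i).2.2.2.2.2) from Prod.ext (hxi i) rfl] at this
    exact tup_mem h h0 k
  have h1 := Set.ncard_le_ncard hmem hfin
  have h2 : (Set.range f).ncard = 16 := by
    rw [← Set.image_univ, Set.ncard_image_of_injective _ hf, Set.ncard_univ]
    simp
  omega

/-! ### The explicit drawing -/

/-- positions -/
noncomputable def P (i : Fin 2) (v : Fin 9) : ℂ := ⟨(px i v : ℝ), (py i v : ℝ)⟩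

/-- straight arcs -/
noncomputable def Γ (i : Fin 2) (u v : Fin 9) (t : ℝ) : ℂ := P i u + (t : ℂ) * (P i v - P i u)

lemma Γ_re (i : Fin 2) (u v : Fin 9) (t : ℝ) :
    (Γ i u v t).re = px i u + t * (px i v - px i u) := by
  simp [Γ, P]

lemma Γ_im (i : Fin 2) (u v : Fin 9) (t : ℝ) :
    (Γ i u v t).im = py i u + t * (py i v - py i u) := by
  simp [Γ, P]

lemma P_inj (i : Fin 2) : Function.Injective (P i) := by
  intro u v h
  have h1 := congrArg Complex.re h
  have h2 := congrArg Complex.im h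
  simp only [P, Int.cast_inj] at h1 h2
  exact pos_inj i u v h1 h2

/-- key identity: the orientations with respect to the line `a b` along `c d`. -/
lemma key (i : Fin 2) (a b c d : Fin 9) (s t : ℝ) (h : Γ i a b s = Γ i c d t) :
    (1 - t) * (ori i a b c : ℝ) + t * (ori i a b d : ℝ) = 0 := by
  have h1 := congrArg Complex.re h
  have h2 := congrArg Complex.im h
  rw [Γ_re, Γ_re] at h1
  rw [Γ_im, Γ_im] at h2
  unfold ori
  push_cast
  linear_combination ((py i b : ℝ) - py i a) * h1 - ((px i b : ℝ) - px i a) * h2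

lemma avoid (i : Fin 2) (u v w : Fin 9) (huv : u ≠ v) (t : ℝ) (h0 : 0 < t) (h1 : t < 1) :
    Γ i u v t ≠ P i w := by
  intro h
  have hw : P i w = Γ i w w 0 := by simp [Γ]
  rw [hw] at h
  have hk := key i u v w w t 0 h
  have hk' : (ori i u v w : ℝ) = 0 := by linarith
  have hz : ori i u v w = 0 := by exact_mod_cast hk'
  have e1 := congrArg Complex.re h
  have e2 := congrArg Complex.im h
  rw [Γ_re, Γ_re] at e1
  rw [Γ_im, Γ_im] at e2
  by_cases hwu : u = w
  · subst hwu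
    have a1 : t * ((px i v : ℝ) - px i u) = 0 := by linarith
    have a2 : t * ((py i v : ℝ) - py i u) = 0 := by linarith
    rcases mul_eq_zero.1 a1 with a1 | a1
    · linarith
    rcases mul_eq_zero.1 a2 with a2 | a2
    · linarith
    have b1 : px i u = px i v := by
      have : (px i u : ℝ) = px i v := by linarith
      exact_mod_cast this
    have b2 : py i u = py i v := by
      have : (py i u : ℝ) = py i v := by linarith
      exact_mod_cast this
    exact huv (pos_inj i u v b1 b2)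
  · by_cases hwv : v = w
    · subst hwv
      have a1 : (1 - t) * ((px i u : ℝ) - px i v) = 0 := by linarith
      have a2 : (1 - t) * ((py i u : ℝ) - py i v) = 0 := by linarith
      rcases mul_eq_zero.1 a1 with a1 | a1
      · linarith
      rcases mul_eq_zero.1 a2 with a2 | a2
      · linarith
      have b1 : px i u = px i v := by
        have : (px i u : ℝ) = px i v := by linarith
        exact_mod_cast this
      have b2 : py i u = py i v := by
        have : (py i u : ℝ) = py i v := by linarith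
        exact_mod_cast this
      exact huv (pos_inj i u v b1 b2)
    · exact general i u v w huv hwu hwv hz

lemma isDr : IsDr (⊤ : SimpleGraph (Fin 9)) col P Γ := by
  refine ⟨fun u v _ => col_symm u v, P_inj, ?_⟩
  intro i u v huv _
  have huv' : u ≠ v := huv.ne
  refine ⟨?_, ?_, by simp [Γ], by simp [Γ], ?_, ?_⟩
  · apply Continuous.continuousOn
    unfold Γ
    fun_prop
  · intro s _ t _ hst
    have e1 := congrArg Complex.re hst
    have e2 := congrArg Complex.im hst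
    rw [Γ_re, Γ_re] at e1
    rw [Γ_im, Γ_im] at e2
    by_contra hne
    have hne' : s - t ≠ 0 := sub_ne_zero.2 hne
    have a1 : (s - t) * ((px i v : ℝ) - px i u) = 0 := by linarith
    have a2 : (s - t) * ((py i v : ℝ) - py i u) = 0 := by linarith
    rcases mul_eq_zero.1 a1 with a1 | a1
    · exact hne' a1
    rcases mul_eq_zero.1 a2 with a2 | a2
    · exact hne' a2
    have b1 : px i u = px i v := by
      have : (px i u : ℝ) = px i v := by linarith
      exact_mod_cast this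
    have b2 : py i u = py i v := by
      have : (py i u : ℝ) = py i v := by linarith
      exact_mod_cast this
    exact huv' (pos_inj i u v b1 b2)
  · intro t _ _
    unfold Γ
    push_cast
    ring
  · intro t h0 h1 w
    exact avoid i u v w huv' t h0 h1

lemma same_sign {A B t : ℝ} (h0 : 0 < t) (h1 : t < 1) (h : 0 < A * B)
    (hk : (1 - t) * A + t * B = 0) : False := by
  have e : (1 - t) * (A * A) + t * (A * B) = 0 := by linear_combination A * hk
  have e1 : 0 ≤ (1 - t) * (A * A) := mul_nonneg (by linarith) (mul_self_nonneg A)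
  have e2 : 0 < t * (A * B) := mul_pos h0 h
  linarith

/-- every crossing of the explicit drawing is the special one -/
lemma mem_special {x : Fin 2 × Fin 9 × Fin 9 × Fin 9 × Fin 9 × ℂ}
    (hx : x ∈ Xs (⊤ : SimpleGraph (Fin 9)) col Γ) :
    (x.1, x.2.1, x.2.2.1, x.2.2.2.1, x.2.2.2.2.1) ∈ special := by
  obtain ⟨i, a, b, c, d, z⟩ := x
  obtain ⟨h1, h2, h3, h4, h5, h6, ⟨s, hs0, hs1, hs⟩, ⟨t, ht0, ht1, ht⟩⟩ := hx
  simp only at h1 h2 h3 h4 h5 h6 hs ht
  have hab : a ≠ b := h1.ne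
  have hcd : c ≠ d := h2.ne
  have hst : Γ i a b s = Γ i c d t := by rw [hs, ht]
  have k1 := key i a b c d s t hst
  have k2 := key i c d a b t s hst.symm
  have oaa : ∀ a b : Fin 9, ori i a b a = 0 := by intro a b; unfold ori; ring
  have obb : ∀ a b : Fin 9, ori i a b b = 0 := by intro a b; unfold ori; ring
  -- no common end vertex
  have hac : a ≠ c := by
    rintro rfl
    rw [oaa] at k1
    have hbd : b ≠ d := fun h => h5 ⟨rfl, h⟩
    have : (ori i a b d : ℝ) = 0 := by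
      have h0 : t * (ori i a b d : ℝ) = 0 := by simpa using k1
      rcases mul_eq_zero.1 h0 with h | h
      · linarith
      · exact h
    exact general i a b d hab hcd hbd (by exact_mod_cast this)
  have had : a ≠ d := by
    rintro rfl
    rw [oaa] at k1
    have hbc : b ≠ c := fun h => h6 ⟨rfl, h⟩
    have : (ori i a b c : ℝ) = 0 := by
      have h0 : (1 - t) * (ori i a b c : ℝ) = 0 := by simpa using k1
      rcases mul_eq_zero.1 h0 with h | h
      · linarith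
      · exact h
    exact general i a b c hab hac hbc (by exact_mod_cast this)
  have hbc : b ≠ c := by
    rintro rfl
    rw [obb] at k1
    have : (ori i a b d : ℝ) = 0 := by
      have h0 : t * (ori i a b d : ℝ) = 0 := by simpa using k1
      rcases mul_eq_zero.1 h0 with h | h
      · linarith
      · exact h
    exact general i a b d hab had hcd (by exact_mod_cast this)
  have hbd : b ≠ d := by
    rintro rfl
    rw [obb] at k1
    have : (ori i a b c : ℝ) = 0 := by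
      have h0 : (1 - t) * (ori i a b c : ℝ) = 0 := by simpa using k1
      rcases mul_eq_zero.1 h0 with h | h
      · linarith
      · exact h
    exact general i a b c hab hac hbc (by exact_mod_cast this)
  rcases no_cross i a b c d hab hcd h3 h4 hac had hbc hbd with h | h | h
  · exfalso
    have h' : (0 : ℝ) < (ori i a b c : ℝ) * (ori i a b d : ℝ) := by exact_mod_cast h
    exact same_sign ht0 ht1 h' k1
  · exfalso
    have h' : (0 : ℝ) < (ori i c d a : ℝ) * (ori i c d b : ℝ) := by exact_mod_cast h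
    exact same_sign hs0 hs1 h' k2
  · exact h

lemma z_unique {x y : Fin 2 × Fin 9 × Fin 9 × Fin 9 × Fin 9 × ℂ}
    (hx : x ∈ Xs (⊤ : SimpleGraph (Fin 9)) col Γ) (hy : y ∈ Xs (⊤ : SimpleGraph (Fin 9)) col Γ)
    (h : (x.1, x.2.1, x.2.2.1, x.2.2.2.1, x.2.2.2.2.1) =
      (y.1, y.2.1, y.2.2.1, y.2.2.2.1, y.2.2.2.2.1)) : x = y := by
  have hsp := mem_special hx
  obtain ⟨i, a, b, c, d, z⟩ := x
  obtain ⟨i', a', b', c', d', z'⟩ := y
  simp only [Prod.mk.injEq] at h
  obtain ⟨rfl, rfl, rfl, rfl, rfl⟩ := h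
  obtain ⟨h1, h2, _, _, _, _, ⟨s, hs0, hs1, hs⟩, ⟨t, ht0, ht1, ht⟩⟩ := hx
  obtain ⟨_, _, _, _, _, _, ⟨s', hs0', hs1', hs'⟩, ⟨t', ht0', ht1', ht'⟩⟩ := hy
  simp only at hs ht hs' ht' h1 h2 hsp
  have k1 := key i a b c d s t (by rw [hs, ht])
  have k2 := key i a b c d s' t' (by rw [hs', ht'])
  have hne : ori i a b c ≠ 0 := by
    exact special_ori _ hsp
  have htt : t = t' := by
    have hne' : (ori i a b c : ℝ) ≠ 0 := by exact_mod_cast hne
    by_contra hc
    have hc' : t - t' ≠ 0 := sub_ne_zero.2 hc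
    have e1 : (t - t') * ((ori i a b d : ℝ) - ori i a b c) = 0 := by linarith
    rcases mul_eq_zero.1 e1 with e1 | e1
    · exact hc' e1
    · apply hne'
      have : (ori i a b d : ℝ) = ori i a b c := by linarith
      rw [this] at k1
      linarith
  subst htt
  rw [← ht, ← ht']

lemma Xs_finite : (Xs (⊤ : SimpleGraph (Fin 9)) col Γ).Finite ∧
    (Xs (⊤ : SimpleGraph (Fin 9)) col Γ).ncard ≤ 8 := by
  have hinj : Set.InjOn (fun x : Fin 2 × Fin 9 × Fin 9 × Fin 9 × Fin 9 × ℂ =>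
      (x.1, x.2.1, x.2.2.1, x.2.2.2.1, x.2.2.2.2.1)) (Xs (⊤ : SimpleGraph (Fin 9)) col Γ) :=
    fun x hx y hy h => z_unique hx hy h
  have hmaps : Set.MapsTo (fun x : Fin 2 × Fin 9 × Fin 9 × Fin 9 × Fin 9 × ℂ =>
      (x.1, x.2.1, x.2.2.1, x.2.2.2.1, x.2.2.2.2.1)) (Xs (⊤ : SimpleGraph (Fin 9)) col Γ)
      (special : Set _) := fun x hx => mem_special hx
  have hfin : (Xs (⊤ : SimpleGraph (Fin 9)) col Γ).Finite :=
    Set.Finite.of_injOn hmaps hinj special.finite_toSet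
  refine ⟨hfin, ?_⟩
  have := Set.ncard_le_ncard_of_injOn _ hmaps hinj special.finite_toSet
  rw [Set.ncard_coe_finset] at this
  exact this.trans special_card

/-- `K₉` has no self-complementary optimal drawing. -/
theorem no_self_compl (c : Fin 9 → Fin 9 → Fin 2) (p : Fin 2 → Fin 9 → ℂ)
    (γ : Fin 2 → Fin 9 → Fin 9 → ℝ → ℂ) (h : IsDr (⊤ : SimpleGraph (Fin 9)) c p γ)
    (hfin : (Xs (⊤ : SimpleGraph (Fin 9)) c γ).Finite)
    (hiso : Nonempty (SimpleGraph.fromRel (fun u v => (⊤ : SimpleGraph (Fin 9)).Adj u v ∧ c u v = 0)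
      ≃g SimpleGraph.fromRel (fun u v => (⊤ : SimpleGraph (Fin 9)).Adj u v ∧ c u v = 1)))
    (hopt : (Xs (⊤ : SimpleGraph (Fin 9)) c γ).ncard ≤
      (Xs (⊤ : SimpleGraph (Fin 9)) col Γ).ncard) : False := by
  obtain ⟨e⟩ := hiso
  have h8 := hopt.trans Xs_finite.2
  have hpl : ∃ i : Fin 2, ∀ x ∈ Xs (⊤ : SimpleGraph (Fin 9)) c γ, x.1 ≠ i := by
    by_contra hc
    push Not at hc
    have := sixteen h hfin hc
    omega
  have hPD : PD (SimpleGraph.fromRel (fun u v => (⊤ : SimpleGraph (Fin 9)).Adj u v ∧ c u v = 0)) ∧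
      PD (SimpleGraph.fromRel (fun u v => (⊤ : SimpleGraph (Fin 9)).Adj u v ∧ c u v = 1)) := by
    obtain ⟨i, hi⟩ := hpl
    have h1 := PD_of_plane h i hi
    fin_cases i
    · exact ⟨h1, PD.iso e.symm h1⟩
    · exact ⟨PD.iso e h1, h1⟩
  refine not_both_good (V := Fin 9) (by simp) _ _ (good_of_PD hPD.1) (good_of_PD hPD.2) ?_
  intro x y hxy
  rw [SimpleGraph.fromRel_adj, SimpleGraph.fromRel_adj]
  have h01 : c x y = 0 ∨ c x y = 1 := by
    generalize c x y = w
    fin_cases w <;> simp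
  rcases h01 with h0 | h0
  · exact Or.inl ⟨hxy, Or.inl ⟨hxy, h0⟩⟩
  · exact Or.inr ⟨hxy, Or.inl ⟨hxy, h0⟩⟩

end Pool.Agent.X64.K9
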