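import Mathlib

set_option autoImplicit false

/-!
# A certificate checker: the edges of `K₉` are not covered by two graphs without `K₅`- and
`K₃,₃`-minors
-/

namespace Pool.Agent.X64.K9

/-! ### Graph side -/

section Graph

variable {V : Type*}

/-- `C` is nonempty and connected in `H`. -/
def ConnS (H : SimpleGraph V) (C : Set V) : Prop :=
  C.Nonempty ∧ ∀ x ∈ C, ∀ y ∈ C, Relation.ReflTransGen (fun a b => a ∈ C ∧ b ∈ C ∧ H.Adj a b) x y

/-- some edge of `H` joins `C` and `D` -/
def AdjS (H : SimpleGraph V) (C D : Set V) : Prop := ∃ x ∈ C, ∃ y ∈ D, H.Adj x y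

/-- `K₅`-minor -/
def HasK5 (H : SimpleGraph V) : Prop :=
  ∃ C : Fin 5 → Set V, (∀ i, ConnS H (C i)) ∧ (∀ i j, i ≠ j → Disjoint (C i) (C j)) ∧
    ∀ i j, i < j → AdjS H (C i) (C j)

/-- `K₃,₃`-minor -/
def HasK33 (H : SimpleGraph V) : Prop :=
  ∃ C : Fin 6 → Set V, (∀ i, ConnS H (C i)) ∧ (∀ i j, i ≠ j → Disjoint (C i) (C j)) ∧
    ∀ i j, i < 3 → 3 ≤ j → AdjS H (C i) (C j)

/-- neither minor -/
def Good (H : SimpleGraph V) : Prop := ¬ HasK5 H ∧ ¬ HasK33 H

lemma AdjS.symm {H : SimpleGraph V} {C D : Set V} (h : AdjS H C D) : AdjS H D C := by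
  obtain ⟨x, hx, y, hy, hxy⟩ := h
  exact ⟨y, hy, x, hx, hxy.symm⟩

lemma connS_singleton (H : SimpleGraph V) (x : V) : ConnS H {x} := by
  refine ⟨⟨x, rfl⟩, ?_⟩
  rintro a rfl b rfl
  exact Relation.ReflTransGen.refl

lemma rtg_mono {r p : V → V → Prop} (h : ∀ a b, r a b → p a b) {a b : V}
    (hab : Relation.ReflTransGen r a b) : Relation.ReflTransGen p a b := by
  induction hab with
  | refl => exact Relation.ReflTransGen.refl
  | tail _ h2 ih => exact ih.tail (h _ _ h2)

lemma ConnS.union {H : SimpleGraph V} {C D : Set V} (hC : ConnS H C) (hD : ConnS H D)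
    (h : AdjS H C D) : ConnS H (C ∪ D) := by
  obtain ⟨x, hx, y, hy, hxy⟩ := h
  have mC : ∀ a ∈ C, ∀ b ∈ C, Relation.ReflTransGen
      (fun a b => a ∈ C ∪ D ∧ b ∈ C ∪ D ∧ H.Adj a b) a b := by
    intro a ha b hb
    exact rtg_mono (fun p q h => ⟨Or.inl h.1, Or.inl h.2.1, h.2.2⟩) (hC.2 a ha b hb)
  have mD : ∀ a ∈ D, ∀ b ∈ D, Relation.ReflTransGen
      (fun a b => a ∈ C ∪ D ∧ b ∈ C ∪ D ∧ H.Adj a b) a b := by
    intro a ha b hb
    exact rtg_mono (fun p q h => ⟨Or.inr h.1, Or.inr h.2.1, h.2.2⟩) (hD.2 a ha b hb)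
  refine ⟨⟨x, Or.inl hx⟩, ?_⟩
  rintro a (ha | ha) b (hb | hb)
  · exact mC a ha b hb
  · exact ((mC a ha x hx).tail ⟨Or.inl hx, Or.inr hy, hxy⟩).trans (mD y hy b hb)
  · exact ((mD a ha y hy).tail ⟨Or.inr hy, Or.inl hx, hxy.symm⟩).trans (mC x hx b hb)
  · exact mD a ha b hb

end Graph

/-! ### The checker -/

/-- bit `k` of `A` -/
def bt (A k : ℕ) : Bool := Nat.beq (Nat.land (Nat.shiftRight A k) 1) 1

/-- matrix entry -/
def ent (A i j : ℕ) : Bool := bt A (Nat.add (Nat.mul 9 i) j)

/-- the column mask `∑ i < 9, 2 ^ (9 i)` -/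
def CM : ℕ := 4731607904558235517441

/-- merge row and column `u` into `v` -/
def ctr (A u v : ℕ) : ℕ :=
  Nat.lor (Nat.lor A (Nat.shiftLeft (Nat.land (Nat.shiftRight A (Nat.mul 9 u)) 511) (Nat.mul 9 v)))
    (Nat.shiftLeft (Nat.land (Nat.shiftRight A u) CM) v)

/-- add the edge `i j` -/
def addE (A i j : ℕ) : ℕ :=
  Nat.lor (Nat.lor A (Nat.shiftLeft 1 (Nat.add (Nat.mul 9 i) j)))
    (Nat.shiftLeft 1 (Nat.add (Nat.mul 9 j) i))

/-- hexadecimal digit `k` of the stream -/
def dig (s k : ℕ) : ℕ := Nat.land (Nat.shiftRight s (Nat.mul 4 k)) 15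

def nq (a b : ℕ) : Bool := !(Nat.beq a b)

/-- final test for `K₅`, vertices are digits `0..4` of `s` -/
def fin5 (A L s : ℕ) : Bool :=
  bt L (dig s 0) && bt L (dig s 1) && bt L (dig s 2) && bt L (dig s 3) && bt L (dig s 4) &&
  nq (dig s 0) (dig s 1) && nq (dig s 0) (dig s 2) && nq (dig s 0) (dig s 3) &&
  nq (dig s 0) (dig s 4) && nq (dig s 1) (dig s 2) && nq (dig s 1) (dig s 3) &&
  nq (dig s 1) (dig s 4) && nq (dig s 2) (dig s 3) && nq (dig s 2) (dig s 4) &&
  nq (dig s 3) (dig s 4) &&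
  ent A (dig s 0) (dig s 1) && ent A (dig s 0) (dig s 2) && ent A (dig s 0) (dig s 3) &&
  ent A (dig s 0) (dig s 4) && ent A (dig s 1) (dig s 2) && ent A (dig s 1) (dig s 3) &&
  ent A (dig s 1) (dig s 4) && ent A (dig s 2) (dig s 3) && ent A (dig s 2) (dig s 4) &&
  ent A (dig s 3) (dig s 4)

/-- final test for `K₃,₃` -/
def fin33 (A L s : ℕ) : Bool :=
  bt L (dig s 0) && bt L (dig s 1) && bt L (dig s 2) && bt L (dig s 3) && bt L (dig s 4) &&
  bt L (dig s 5) &&
  nq (dig s 0) (dig s 1) && nq (dig s 0) (dig s 2) && nq (dig s 0) (dig s 3) &&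
  nq (dig s 0) (dig s 4) && nq (dig s 0) (dig s 5) && nq (dig s 1) (dig s 2) &&
  nq (dig s 1) (dig s 3) && nq (dig s 1) (dig s 4) && nq (dig s 1) (dig s 5) &&
  nq (dig s 2) (dig s 3) && nq (dig s 2) (dig s 4) && nq (dig s 2) (dig s 5) &&
  nq (dig s 3) (dig s 4) && nq (dig s 3) (dig s 5) && nq (dig s 4) (dig s 5) &&
  ent A (dig s 0) (dig s 3) && ent A (dig s 0) (dig s 4) && ent A (dig s 0) (dig s 5) &&
  ent A (dig s 1) (dig s 3) && ent A (dig s 1) (dig s 4) && ent A (dig s 1) (dig s 5) &&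
  ent A (dig s 2) (dig s 3) && ent A (dig s 2) (dig s 4) && ent A (dig s 2) (dig s 5)

/-- minor test: `q` contractions, then the final test. The stream holds `u v` for every
contraction. Returns whether the test succeeds. -/
def minor : ℕ → ℕ → ℕ → ℕ → Bool → Bool
  | 0, A, L, s, true => fin33 A L s
  | 0, A, L, s, false => fin5 A L s
  | q + 1, A, L, s, ty =>
      bt L (dig s 0) && bt L (dig s 1) && nq (dig s 0) (dig s 1) && ent A (dig s 0) (dig s 1) &&
      minor q (ctr A (dig s 0) (dig s 1)) (Nat.xor L (Nat.shiftLeft 1 (dig s 0)))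
        (Nat.shiftRight s 8) ty

/-- all `i < n` -/
def allLt : ℕ → (ℕ → Bool) → Bool
  | 0, _ => true
  | n + 1, f => f n && allLt n f

/-- isomorphism test: `R` is the matrix (`n` vertices) of the class -/
def iso (n A B R s : ℕ) : Bool :=
  allLt n (fun i => Nat.ble (dig s i) 8) &&
  allLt n (fun j => allLt j (fun i =>
    cond (ent R i j) (ent A (dig s i) (dig s j)) (ent B (dig s i) (dig s j))))

/-- the evaluator of a certificate tree; returns the rest of the stream -/
def ev (X N n : ℕ) : ℕ → ℕ → ℕ → ℕ → Option ℕ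
  | 0, _, _, _ => none
  | f + 1, A, B, s =>
    match dig s 0 with
    | 0 =>
      match Nat.blt (dig s 1) n with
      | false => none
      | true =>
        match ev X N n f (addE A (dig s 1) n) B (Nat.shiftRight s 8) with
        | none => none
        | some r => ev X N n f A (addE B (dig s 1) n) r
    | 1 => match minor (dig s 1) A (Nat.sub (Nat.shiftLeft 1 (Nat.succ n)) 1) (Nat.shiftRight s 8) true with
      | false => none
      | true => some (Nat.shiftRight s (Nat.add 32 (Nat.mul 8 (dig s 1))))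
    | 2 => match minor (dig s 1) A (Nat.sub (Nat.shiftLeft 1 (Nat.succ n)) 1) (Nat.shiftRight s 8) false with
      | false => none
      | true => some (Nat.shiftRight s (Nat.add 28 (Nat.mul 8 (dig s 1))))
    | 3 => match minor (dig s 1) B (Nat.sub (Nat.shiftLeft 1 (Nat.succ n)) 1) (Nat.shiftRight s 8) true with
      | false => none
      | true => some (Nat.shiftRight s (Nat.add 32 (Nat.mul 8 (dig s 1))))
    | 4 => match minor (dig s 1) B (Nat.sub (Nat.shiftLeft 1 (Nat.succ n)) 1) (Nat.shiftRight s 8) false with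
      | false => none
      | true => some (Nat.shiftRight s (Nat.add 28 (Nat.mul 8 (dig s 1))))
    | 5 => match Nat.blt (Nat.land (Nat.shiftRight s 4) 4095) N && iso (Nat.succ n) A B
          (Nat.land (Nat.shiftRight X (Nat.mul 81 (Nat.land (Nat.shiftRight s 4) 4095)))
            2417851639229258349412351) (Nat.shiftRight s 16) with
      | false => none
      | true => some (Nat.shiftRight s (Nat.add 16 (Nat.mul 4 (Nat.succ n))))
    | 6 => match Nat.blt (Nat.land (Nat.shiftRight s 4) 4095) N && iso (Nat.succ n) B A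
          (Nat.land (Nat.shiftRight X (Nat.mul 81 (Nat.land (Nat.shiftRight s 4) 4095)))
            2417851639229258349412351) (Nat.shiftRight s 16) with
      | false => none
      | true => some (Nat.shiftRight s (Nat.add 16 (Nat.mul 4 (Nat.succ n))))
    | _ => none

/-- matrix number `k` of the data base `X` -/
def Y (X k : ℕ) : ℕ := Nat.land (Nat.shiftRight X (Nat.mul 81 k)) 2417851639229258349412351

/-- `A` is symmetric, without loops, on `n` vertices and `B` is its complement -/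
def sym (n A B : ℕ) : Bool :=
  allLt 9 (fun j => !(ent A j j) && (!(ent B j j) && allLt j (fun i =>
    cond (Nat.blt j n)
      (cond (ent A i j) (ent A j i && (!(ent B i j) && !(ent B j i)))
        (!(ent A j i) && (ent B i j && ent B j i)))
      (!(ent A i j) && (!(ent A j i) && (!(ent B i j) && !(ent B j i)))))))

/-- check of the classes `k, k + 1, ...` of level `n` -/
def okFrom (X X' N n c : ℕ) : ℕ → List ℕ → Bool
  | _, [] => true
  | k, s :: l =>
    (match ev X' N n 2000 (Y X k) (Nat.xor c (Y X k)) s with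
      | some _ => true
      | none => false) && (sym n (Y X k) (Nat.xor c (Y X k)) && okFrom X X' N n c (Nat.succ k) l)

end Pool.Agent.X64.K9
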