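import Pool.Agent.X64.K9.Topo

set_option autoImplicit false

namespace Pool.Agent.X64.K9

/-- colour of a pair -/
def col (u v : Fin 9) : Fin 2 := if Nat.testBit 354200616949855986604854 (9 * u.val + v.val) then 0 else 1

/-- coordinates -/
def px : Fin 2 → Fin 9 → ℤ := ![![3, 7, 8, 1, 4, 7, 9, 8, 1], ![2, 2, 6, 3, 13, 4, 0, 3, 5]]

/-- coordinates -/
def py : Fin 2 → Fin 9 → ℤ := ![![9, 4, 13, 9, 10, 5, 2, 12, 8], ![9, 3, 10, 11, 6, 4, 3, 13, 9]]

/-- orientation -/
def ori (i : Fin 2) (a b c : Fin 9) : ℤ :=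
  (px i b - px i a) * (py i c - py i a) - (py i b - py i a) * (px i c - px i a)

lemma col_symm : ∀ u v : Fin 9, col u v = col v u := by decide +kernel

lemma pos_inj : ∀ i : Fin 2, ∀ u v : Fin 9, px i u = px i v → py i u = py i v → u = v := by
  decide +kernel

lemma general : ∀ i : Fin 2, ∀ a b c : Fin 9, a ≠ b → a ≠ c → b ≠ c → ori i a b c ≠ 0 := by
  decide +kernel

/-- the eight descriptions of the only crossing -/
def special : Finset (Fin 2 × Fin 9 × Fin 9 × Fin 9 × Fin 9) :=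
  {(0, 1, 3, 0, 8), (0, 3, 1, 0, 8), (0, 1, 3, 8, 0), (0, 3, 1, 8, 0),
   (0, 0, 8, 1, 3), (0, 0, 8, 3, 1), (0, 8, 0, 1, 3), (0, 8, 0, 3, 1)}

lemma special_card : special.card ≤ 8 := by decide +kernel

lemma special_ori : ∀ q ∈ special, ori q.1 q.2.1 q.2.2.1 q.2.2.2.1 ≠ 0 := by
  intro q hq
  simp only [special, Finset.mem_insert, Finset.mem_singleton] at hq
  rcases hq with rfl | rfl | rfl | rfl | rfl | rfl | rfl | rfl <;>
    exact general _ _ _ _ (by decide) (by decide) (by decide)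

lemma no_cross : ∀ i : Fin 2, ∀ a b c d : Fin 9, a ≠ b → c ≠ d → col a b = i → col c d = i →
    a ≠ c → a ≠ d → b ≠ c → b ≠ d → 0 < ori i a b c * ori i a b d ∨
      0 < ori i c d a * ori i c d b ∨ (i, a, b, c, d) ∈ special := by
  decide +kernel

end Pool.Agent.X64.K9
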