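import Pool.Agent.Helper770.VanKampen

set_option autoImplicit false

open Complex

namespace Pool.Agent.X64.K9

open Pool.Agent.Helper770.VanKampen

/-- Van Kampen obstruction for `K₃,₃`. -/
theorem k33_joined (p : Fin 6 → ℂ) (S : Fin 6 → Fin 6 → Set ℂ)
    (hS : ∀ a b, a < 3 → 3 ≤ b → JoinedIn (S a b) (p a) (p b))
    (hdis : ∀ a b c d, a < 3 → 3 ≤ b → c < 3 → 3 ≤ d → a ≠ c → b ≠ d →
      Disjoint (S a b) (S c d)) : False := by
  have hex : ∀ a b c : Fin 6, (a < 3 ∧ 3 ≤ b ∧ c ≠ a ∧ c ≠ b) → ∃ x y : Fin 6, x < 3 ∧ 3 ≤ y ∧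
      (c = x ∨ c = y) ∧ a ≠ x ∧ b ≠ y := by decide
  have hex2 : ∀ a c : Fin 6, a ≠ c → ∃ b b' : Fin 6, b < 3 ∧ 3 ≤ b' ∧ (a = b ∨ a = b') ∧
      c ≠ b ∧ c ≠ b' := by decide
  classical
  let γ : Fin 6 → Fin 6 → ℝ → ℂ := fun a b =>
    if h : a < 3 ∧ 3 ≤ b then (hS a b h.1 h.2).somePath.extend else fun _ => 0
  have hγ : ∀ a b (h : a < 3) (h' : 3 ≤ b), γ a b = (hS a b h h').somePath.extend :=
    fun a b h h' => dif_pos ⟨h, h'⟩
  have hmem : ∀ a b, a < 3 → 3 ≤ b → ∀ t, γ a b t ∈ S a b := by
    intro a b h h' t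
    rw [hγ a b h h']
    have : (hS a b h h').somePath.extend t ∈ Set.range (hS a b h h').somePath.extend := ⟨t, rfl⟩
    rw [Path.extend_range] at this
    obtain ⟨s, hs⟩ := this
    rw [← hs]
    exact (hS a b h h').somePath_mem s
  have hpmem : ∀ a b, a < 3 → 3 ≤ b → p a ∈ S a b ∧ p b ∈ S a b := fun a b h h' =>
    ⟨(hS a b h h').source_mem, (hS a b h h').target_mem⟩
  have hd : ∀ a b c d, a < 3 → 3 ≤ b → c < 3 → 3 ≤ d → a ≠ c → b ≠ d →
      ∀ s t, γ a b s ≠ γ c d t := by
    intro a b c d h1 h2 h3 h4 h5 h6 s t he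
    exact Set.disjoint_left.mp (hdis a b c d h1 h2 h3 h4 h5 h6) (hmem a b h1 h2 s)
      (he ▸ hmem c d h3 h4 t)
  have hv : ∀ a b c : Fin 6, a < b → (a < 3 ∧ 3 ≤ b) → c ≠ a → c ≠ b → ∀ t, γ a b t ≠ p c := by
    intro a b c _ hab hca hcb t he
    obtain ⟨x, y, hx, hy, hc, h1, h2⟩ := hex a b c ⟨hab.1, hab.2, hca, hcb⟩
    have hpc : p c ∈ S x y := by
      rcases hc with rfl | rfl
      · exact (hpmem _ _ hx hy).1
      · exact (hpmem _ _ hx hy).2
    exact Set.disjoint_left.mp (hdis a b x y hab.1 hab.2 hx hy h1 h2) (hmem a b hab.1 hab.2 t)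
      (he ▸ hpc)
  have hp : Function.Injective p := by
    intro a c hac
    by_contra hne
    obtain ⟨b, b', hb, hb', ha, h1, h2⟩ := hex2 a c hne
    have hlt : b < b' := lt_of_lt_of_le hb hb'
    have h0 : γ b b' 0 = p b := by rw [hγ _ _ hb hb']; simp
    have h1' : γ b b' 1 = p b' := by rw [hγ _ _ hb hb']; simp
    rcases ha with rfl | rfl
    · exact hv _ _ c hlt ⟨hb, hb'⟩ h1 h2 0 (h0.trans hac)
    · exact hv _ _ c hlt ⟨hb, hb'⟩ h1 h2 1 (h1'.trans hac)
  obtain ⟨m, hm⟩ := exists_labels p hp (fun a b => a < 3 ∧ 3 ≤ b) γ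
    (fun a b _ h => by rw [hγ a b h.1 h.2]; exact (hS a b h.1 h.2).somePath.continuous_extend)
    (fun a b _ h => by rw [hγ a b h.1 h.2]; simp) (fun a b _ h => by rw [hγ a b h.1 h.2]; simp) hv
  have h0 := hm 0 3 1 4 (by decide) (by decide) (by decide) (by decide) (by decide) (by decide) (by decide) (by decide) (hd _ _ _ _ (by decide) (by decide) (by decide) (by decide) (by decide) (by decide))
  rw [show beta ((0 : Fin 6)) 3 1 4 = 1 from by decide] at h0
  have h1 := hm 0 3 1 5 (by decide) (by decide) (by decide) (by decide) (by decide) (by decide) (by decide) (by decide) (hd _ _ _ _ (by decide) (by decide) (by decide) (by decide) (by decide) (by decide))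
  rw [show beta ((0 : Fin 6)) 3 1 5 = 1 from by decide] at h1
  have h2 := hm 0 4 1 3 (by decide) (by decide) (by decide) (by decide) (by decide) (by decide) (by decide) (by decide) (hd _ _ _ _ (by decide) (by decide) (by decide) (by decide) (by decide) (by decide))
  rw [show beta ((0 : Fin 6)) 4 1 3 = 0 from by decide] at h2
  have h3 := hm 0 4 1 5 (by decide) (by decide) (by decide) (by decide) (by decide) (by decide) (by decide) (by decide) (hd _ _ _ _ (by decide) (by decide) (by decide) (by decide) (by decide) (by decide))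
  rw [show beta ((0 : Fin 6)) 4 1 5 = 1 from by decide] at h3
  have h4 := hm 0 5 1 3 (by decide) (by decide) (by decide) (by decide) (by decide) (by decide) (by decide) (by decide) (hd _ _ _ _ (by decide) (by decide) (by decide) (by decide) (by decide) (by decide))
  rw [show beta ((0 : Fin 6)) 5 1 3 = 0 from by decide] at h4
  have h5 := hm 0 5 1 4 (by decide) (by decide) (by decide) (by decide) (by decide) (by decide) (by decide) (by decide) (hd _ _ _ _ (by decide) (by decide) (by decide) (by decide) (by decide) (by decide))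
  rw [show beta ((0 : Fin 6)) 5 1 4 = 0 from by decide] at h5
  have h6 := hm 0 3 2 4 (by decide) (by decide) (by decide) (by decide) (by decide) (by decide) (by decide) (by decide) (hd _ _ _ _ (by decide) (by decide) (by decide) (by decide) (by decide) (by decide))
  rw [show beta ((0 : Fin 6)) 3 2 4 = 1 from by decide] at h6
  have h7 := hm 0 3 2 5 (by decide) (by decide) (by decide) (by decide) (by decide) (by decide) (by decide) (by decide) (hd _ _ _ _ (by decide) (by decide) (by decide) (by decide) (by decide) (by decide))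
  rw [show beta ((0 : Fin 6)) 3 2 5 = 1 from by decide] at h7
  have h8 := hm 0 4 2 3 (by decide) (by decide) (by decide) (by decide) (by decide) (by decide) (by decide) (by decide) (hd _ _ _ _ (by decide) (by decide) (by decide) (by decide) (by decide) (by decide))
  rw [show beta ((0 : Fin 6)) 4 2 3 = 0 from by decide] at h8
  have h9 := hm 0 4 2 5 (by decide) (by decide) (by decide) (by decide) (by decide) (by decide) (by decide) (by decide) (hd _ _ _ _ (by decide) (by decide) (by decide) (by decide) (by decide) (by decide))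
  rw [show beta ((0 : Fin 6)) 4 2 5 = 1 from by decide] at h9
  have h10 := hm 0 5 2 3 (by decide) (by decide) (by decide) (by decide) (by decide) (by decide) (by decide) (by decide) (hd _ _ _ _ (by decide) (by decide) (by decide) (by decide) (by decide) (by decide))
  rw [show beta ((0 : Fin 6)) 5 2 3 = 0 from by decide] at h10
  have h11 := hm 0 5 2 4 (by decide) (by decide) (by decide) (by decide) (by decide) (by decide) (by decide) (by decide) (hd _ _ _ _ (by decide) (by decide) (by decide) (by decide) (by decide) (by decide))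
  rw [show beta ((0 : Fin 6)) 5 2 4 = 0 from by decide] at h11
  have h12 := hm 1 3 2 4 (by decide) (by decide) (by decide) (by decide) (by decide) (by decide) (by decide) (by decide) (hd _ _ _ _ (by decide) (by decide) (by decide) (by decide) (by decide) (by decide))
  rw [show beta ((1 : Fin 6)) 3 2 4 = 1 from by decide] at h12
  have h13 := hm 1 3 2 5 (by decide) (by decide) (by decide) (by decide) (by decide) (by decide) (by decide) (by decide) (hd _ _ _ _ (by decide) (by decide) (by decide) (by decide) (by decide) (by decide))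
  rw [show beta ((1 : Fin 6)) 3 2 5 = 1 from by decide] at h13
  have h14 := hm 1 4 2 3 (by decide) (by decide) (by decide) (by decide) (by decide) (by decide) (by decide) (by decide) (hd _ _ _ _ (by decide) (by decide) (by decide) (by decide) (by decide) (by decide))
  rw [show beta ((1 : Fin 6)) 4 2 3 = 0 from by decide] at h14
  have h15 := hm 1 4 2 5 (by decide) (by decide) (by decide) (by decide) (by decide) (by decide) (by decide) (by decide) (hd _ _ _ _ (by decide) (by decide) (by decide) (by decide) (by decide) (by decide))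
  rw [show beta ((1 : Fin 6)) 4 2 5 = 1 from by decide] at h15
  have h16 := hm 1 5 2 3 (by decide) (by decide) (by decide) (by decide) (by decide) (by decide) (by decide) (by decide) (hd _ _ _ _ (by decide) (by decide) (by decide) (by decide) (by decide) (by decide))
  rw [show beta ((1 : Fin 6)) 5 2 3 = 0 from by decide] at h16
  have h17 := hm 1 5 2 4 (by decide) (by decide) (by decide) (by decide) (by decide) (by decide) (by decide) (by decide) (hd _ _ _ _ (by decide) (by decide) (by decide) (by decide) (by decide) (by decide))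
  rw [show beta ((1 : Fin 6)) 5 2 4 = 0 from by decide] at h17
  have two : (2 : ZMod 2) = 0 := rfl
  have one : (1 : ZMod 2) = 0 := by
    linear_combination h0 + h1 + h2 + h3 + h4 + h5 + h6 + h7 + h8 + h9 + h10 + h11 + h12 + h13 + h14 + h15 + h16 + h17 + ((m 0 3 1 + m 0 3 2 + m 0 3 4 + m 0 3 5 + m 0 4 1 + m 0 4 2 + m 0 4 3 + m 0 4 5 + m 0 5 1 + m 0 5 2 + m 0 5 3 + m 0 5 4 + m 1 3 0 + m 1 3 2 + m 1 3 4 + m 1 3 5 + m 1 4 0 + m 1 4 2 + m 1 4 3 + m 1 4 5 + m 1 5 0 + m 1 5 2 + m 1 5 3 + m 1 5 4 + m 2 3 0 + m 2 3 1 + m 2 3 4 + m 2 3 5 + m 2 4 0 + m 2 4 1 + m 2 4 3 + m 2 4 5 + m 2 5 0 + m 2 5 1 + m 2 5 3 + m 2 5 4) - 4) * two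
  exact one_ne_zero one

end Pool.Agent.X64.K9
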