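import Pool.Agent.X64.K9.Sound

set_option autoImplicit false

namespace Pool.Agent.X64.K9

/-- class `k` of level `n` is fine -/
def OneOK (X X' N n c k : ℕ) : Prop :=
  (∃ s r, ev X' N n 2000 (Y X k) (Nat.xor c (Y X k)) s = some r) ∧
    sym n (Y X k) (Nat.xor c (Y X k)) = true

lemma okFrom_sound (X X' N n c : ℕ) : ∀ (L : List ℕ) (k : ℕ), okFrom X X' N n c k L = true →
    ∀ i < L.length, OneOK X X' N n c (k + i) := by
  intro L
  induction L with
  | nil => intro k _ i hi; simp at hi
  | cons s l ih =>
    intro k h i hi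
    unfold okFrom at h
    rw [Bool.and_eq_true, Bool.and_eq_true] at h
    obtain ⟨h1, h2, h3⟩ := h
    cases i with
    | zero =>
      refine ⟨?_, h2⟩
      split at h1
      · rename_i r hr
        exact ⟨s, r, hr⟩
      · exact absurd h1 (by decide)
    | succ i =>
      have := ih (Nat.succ k) h3 i (by simpa using hi)
      have e : Nat.succ k + i = k + (i + 1) := by omega
      rwa [e] at this

lemma sym_sound {n A B : ℕ} (h : sym n A B = true) : ∀ i < 9, ∀ j < 9,
    (ent A i j = true → i < n ∧ j < n ∧ i ≠ j ∧ ent A j i = true) ∧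
    (ent B i j = true → i < n ∧ j < n ∧ i ≠ j ∧ ent A i j = false ∧ ent A j i = false) := by
  unfold sym at h
  rw [allLt_iff] at h
  have key : ∀ j < 9, ∀ i < j,
      (ent A i j = true → i < n ∧ j < n ∧ ent A j i = true) ∧
      (ent A j i = true → i < n ∧ j < n ∧ ent A i j = true) ∧
      (ent B i j = true → i < n ∧ j < n ∧ ent A i j = false ∧ ent A j i = false) ∧
      (ent B j i = true → i < n ∧ j < n ∧ ent A i j = false ∧ ent A j i = false) := by
    intro j hj i hij
    have h1 := h j hj
    rw [Bool.and_eq_true, Bool.and_eq_true, allLt_iff] at h1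
    have h2 := h1.2.2 i hij
    cases hb : Nat.blt j n with
    | true =>
      rw [Nat.blt_eq] at hb
      have hb' : Nat.blt j n = true := by rw [Nat.blt_eq]; exact hb
      rw [hb'] at h2
      have hi : i < n := by omega
      cases e1 : ent A i j <;> cases e2 : ent A j i <;> cases e3 : ent B i j <;>
        cases e4 : ent B j i <;> simp_all
    | false =>
      rw [hb] at h2
      cases e1 : ent A i j <;> cases e2 : ent A j i <;> cases e3 : ent B i j <;>
        cases e4 : ent B j i <;> simp_all
  intro i hi j hj
  rcases lt_trichotomy i j with hij | hij | hij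
  · obtain ⟨k1, k2, k3, k4⟩ := key j hj i hij
    constructor
    · intro he
      obtain ⟨a, b, c⟩ := k1 he
      exact ⟨a, b, hij.ne, c⟩
    · intro he
      obtain ⟨a, b, c, d⟩ := k3 he
      exact ⟨a, b, hij.ne, c, d⟩
  · subst hij
    have h1 := h i hi
    rw [Bool.and_eq_true, Bool.and_eq_true] at h1
    obtain ⟨h2, h3, _⟩ := h1
    constructor
    · intro he
      rw [he] at h2
      exact absurd h2 (by decide)
    · intro he
      rw [he] at h3
      exact absurd h3 (by decide)
  · obtain ⟨k1, k2, k3, k4⟩ := key i hi j hij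
    constructor
    · intro he
      obtain ⟨a, b, c⟩ := k2 he
      exact ⟨b, a, hij.ne', c⟩
    · intro he
      obtain ⟨a, b, c, d⟩ := k4 he
      exact ⟨b, a, hij.ne', d, c⟩

variable {V : Type*} [Fintype V]

theorem level_step {X X' N N' n c : ℕ} (hn : n < 9) (hV : n < Fintype.card V)
    (hnext : LevelOK V X' N' (n + 1)) (h : ∀ k < N, OneOK X X' N' n c k) :
    LevelOK V X N n := by
  classical
  intro k hk H K hH hK hcov φ hfull
  obtain ⟨⟨s, r, hev⟩, hsym⟩ := h k hk
  have hsy := sym_sound hsym
  -- a new vertex
  obtain ⟨v, hv⟩ : ∃ v : V, ∀ i < n, φ i ≠ v := by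
    by_contra hc
    push Not at hc
    have hsurj : (Finset.univ : Finset V) ⊆ (Finset.range n).image φ := by
      intro v _
      obtain ⟨i, hi, he⟩ := hc v
      exact Finset.mem_image.2 ⟨i, Finset.mem_range.2 hi, he⟩
    have h1 := Finset.card_le_card hsurj
    have h2 := Finset.card_image_le (s := Finset.range n) (f := φ)
    rw [Finset.card_range] at h2
    rw [Finset.card_univ] at h1
    omega
  have hne : ∀ j < n, ∀ i < j, φ i ≠ φ j := by
    intro j hj i hij he
    obtain ⟨h1, h2⟩ := hfull j hj i hij
    cases hb : ent (Y X k) i j with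
    | true => exact (h1 hb).ne he
    | false => exact (h2 hb).ne he
  have hφ' : ∀ i < n, Function.update φ n v i = φ i := by
    intro i hi
    rw [Function.update_of_ne (by omega)]
  have hn' : Function.update φ n v n = v := Function.update_self _ _ _
  refine ev_sound (V := V) hn hnext hH hK hcov (φ := Function.update φ n v) ?_ 2000 _ _ s r hev ?_ ?_
  · intro i hi j hj he
    rcases Nat.lt_or_eq_of_le hi with hi' | rfl
    · rcases Nat.lt_or_eq_of_le hj with hj' | rfl
      · rw [hφ' i hi', hφ' j hj'] at he
        rcases lt_trichotomy i j with hij | hij | hij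
        · exact absurd he (hne j hj' i hij)
        · exact hij
        · exact absurd he.symm (hne i hi' j hij)
      · rw [hφ' i hi', hn'] at he
        exact absurd he (hv i hi')
    · rcases Nat.lt_or_eq_of_le hj with hj' | rfl
      · rw [hφ' j hj', hn'] at he
        exact absurd he.symm (hv j hj')
      · rfl
  · intro i hi j hj he
    obtain ⟨h1, h2, h3, h4⟩ := (hsy i hi j hj).1 he
    rw [hφ' i h1, hφ' j h2]
    rcases lt_or_gt_of_ne h3 with hij | hij
    · exact (hfull j h2 i hij).1 he
    · exact ((hfull i h1 j hij).1 h4).symm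
  · intro i hi j hj he
    obtain ⟨h1, h2, h3, h4, h5⟩ := (hsy i hi j hj).2 he
    rw [hφ' i h1, hφ' j h2]
    rcases lt_or_gt_of_ne h3 with hij | hij
    · exact (hfull j h2 i hij).2 h4
    · exact ((hfull i h1 j hij).2 h5).symm

omit [Fintype V] in
theorem level_top (X n : ℕ) : LevelOK V X 0 n := by
  intro k hk
  omega

end Pool.Agent.X64.K9
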