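import Pool.Agent.X64.K9.Check

set_option autoImplicit false

namespace Pool.Agent.X64.K9

lemma bt_eq (A k : ℕ) : bt A k = A.testBit k := by
  rw [Nat.testBit_eq_decide_div_mod_eq]
  unfold bt
  have h1 : Nat.land (Nat.shiftRight A k) 1 = A / 2 ^ k % 2 := by
    show (A >>> k) &&& 1 = _
    rw [Nat.and_one_is_mod, Nat.shiftRight_eq_div_pow]
  rw [h1]
  rw [Bool.eq_iff_iff, Nat.beq_eq, decide_eq_true_eq]

lemma ent_eq (A i j : ℕ) : ent A i j = A.testBit (9 * i + j) := bt_eq _ _

lemma CM_testBit (m : ℕ) (h : CM.testBit m = true) : m % 9 = 0 := by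
  by_cases hm : m < 81
  · unfold CM at h
    interval_cases m <;> first | rfl | (exfalso; revert h; decide)
  · exfalso
    rw [Nat.testBit_lt_two_pow] at h
    · exact absurd h (by decide)
    · calc CM < 2 ^ 81 := by unfold CM; norm_num
        _ ≤ 2 ^ m := Nat.pow_le_pow_right (by norm_num) (by omega)

lemma t511 (m : ℕ) (h : (511 : ℕ).testBit m = true) : m < 9 := by
  by_contra hm
  rw [Nat.testBit_lt_two_pow] at h
  · exact absurd h (by decide)
  · calc (511 : ℕ) < 2 ^ 9 := by norm_num
      _ ≤ 2 ^ m := Nat.pow_le_pow_right (by norm_num) (by omega)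

lemma ctr_ent {A u v i j : ℕ} (_hu : u < 9) (hv : v < 9) (_hi : i < 9) (hj : j < 9)
    (h : ent (ctr A u v) i j = true) :
    ent A i j = true ∨ (i = v ∧ ent A u j = true) ∨ (j = v ∧ ent A i u = true) := by
  rw [ent_eq] at h ⊢
  rw [ent_eq, ent_eq]
  unfold ctr at h
  change ((A ||| ((A >>> (9 * u)) &&& 511) <<< (9 * v)) ||| (((A >>> u) &&& CM) <<< v)).testBit _
    = true at h
  rw [Nat.testBit_or, Nat.testBit_or, Bool.or_eq_true, Bool.or_eq_true] at h
  rcases h with (h | h) | h
  · exact Or.inl h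
  · rw [Nat.testBit_shiftLeft, Bool.and_eq_true, Nat.testBit_and, Bool.and_eq_true,
      Nat.testBit_shiftRight, decide_eq_true_eq] at h
    obtain ⟨h1, h2, h3⟩ := h
    have h4 := t511 _ h3
    right; left
    have hiv : i = v := by omega
    refine ⟨hiv, ?_⟩
    have : 9 * u + (9 * i + j - 9 * v) = 9 * u + j := by omega
    rwa [this] at h2
  · rw [Nat.testBit_shiftLeft, Bool.and_eq_true, Nat.testBit_and, Bool.and_eq_true,
      Nat.testBit_shiftRight, decide_eq_true_eq] at h
    obtain ⟨h1, h2, h3⟩ := h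
    have h4 := CM_testBit _ h3
    right; right
    have hjv : j = v := by omega
    refine ⟨hjv, ?_⟩
    have : u + (9 * i + j - v) = 9 * i + u := by omega
    rwa [this] at h2

lemma addE_ent {A a n i j : ℕ} (ha : a < 9) (hn : n < 9) (_hi : i < 9) (hj : j < 9)
    (h : ent (addE A a n) i j = true) :
    ent A i j = true ∨ (i = a ∧ j = n) ∨ (i = n ∧ j = a) := by
  rw [ent_eq] at h ⊢
  unfold addE at h
  change ((A ||| 1 <<< (9 * a + n)) ||| (1 <<< (9 * n + a))).testBit _ = true at h
  rw [Nat.testBit_or, Nat.testBit_or, Bool.or_eq_true, Bool.or_eq_true] at h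
  rcases h with (h | h) | h
  · exact Or.inl h
  · rw [Nat.testBit_shiftLeft, Bool.and_eq_true, decide_eq_true_eq] at h
    obtain ⟨h1, h2⟩ := h
    have h3 : 9 * i + j - (9 * a + n) = 0 := by
      by_contra hne
      rw [Nat.testBit_lt_two_pow (Nat.one_lt_two_pow hne)] at h2
      exact absurd h2 (by decide)
    right; left
    omega
  · rw [Nat.testBit_shiftLeft, Bool.and_eq_true, decide_eq_true_eq] at h
    obtain ⟨h1, h2⟩ := h
    have h3 : 9 * i + j - (9 * n + a) = 0 := by
      by_contra hne
      rw [Nat.testBit_lt_two_pow (Nat.one_lt_two_pow hne)] at h2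
      exact absurd h2 (by decide)
    right; right
    omega

lemma nq_eq {a b : ℕ} : nq a b = true ↔ a ≠ b := by
  unfold nq
  rw [Bool.not_eq_true', ← Bool.not_eq_true, Nat.beq_eq]

variable {V : Type*} {H K : SimpleGraph V}

lemma AdjS.mono {C C' D D' : Set V} (h : AdjS H C D) (hC : C ⊆ C') (hD : D ⊆ D') :
    AdjS H C' D' := by
  obtain ⟨x, hx, y, hy, hxy⟩ := h
  exact ⟨x, hC hx, y, hD hy, hxy⟩

lemma fin33_sound {A L s : ℕ} {C : ℕ → Set V} (hL : ∀ i, L.testBit i = true → i < 9 ∧ ConnS H (C i))
    (hd : ∀ i j, L.testBit i = true → L.testBit j = true → i ≠ j → Disjoint (C i) (C j))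
    (hA : ∀ i < 9, ∀ j < 9, ent A i j = true → AdjS H (C i) (C j))
    (h : fin33 A L s = true) : HasK33 H := by
  unfold fin33 at h
  simp only [Bool.and_eq_true, nq_eq, bt_eq] at h
  obtain ⟨⟨⟨⟨⟨⟨⟨⟨⟨⟨⟨⟨⟨⟨⟨⟨⟨⟨⟨⟨⟨⟨⟨⟨⟨⟨⟨⟨⟨b0, b1⟩, b2⟩, b3⟩, b4⟩, b5⟩, n01⟩, n02⟩, n03⟩, n04⟩, n05⟩, n12⟩,
    n13⟩, n14⟩, n15⟩, n23⟩, n24⟩, n25⟩, n34⟩, n35⟩, n45⟩, e03⟩, e04⟩, e05⟩, e13⟩, e14⟩, e15⟩, e23⟩,
    e24⟩, e25⟩ := h
  have hb : ∀ i : Fin 6, L.testBit (dig s i) = true := by
    intro i
    fin_cases i
    · exact b0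
    · exact b1
    · exact b2
    · exact b3
    · exact b4
    · exact b5
  refine ⟨fun i => C (dig s i), fun i => (hL _ (hb i)).2, ?_, ?_⟩
  · intro i j hij
    apply hd _ _ (hb i) (hb j)
    fin_cases i <;> fin_cases j <;> first
      | exact absurd rfl hij
      | assumption
      | (apply Ne.symm; assumption)
  · intro i j hi hj
    have l : ∀ i : Fin 6, dig s i < 9 := fun i => (hL _ (hb i)).1
    apply hA _ (l i) _ (l j)
    fin_cases i <;> fin_cases j <;> first
      | assumption
      | exact absurd hi (by decide)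
      | exact absurd hj (by decide)

lemma fin5_sound {A L s : ℕ} {C : ℕ → Set V} (hL : ∀ i, L.testBit i = true → i < 9 ∧ ConnS H (C i))
    (hd : ∀ i j, L.testBit i = true → L.testBit j = true → i ≠ j → Disjoint (C i) (C j))
    (hA : ∀ i < 9, ∀ j < 9, ent A i j = true → AdjS H (C i) (C j))
    (h : fin5 A L s = true) : HasK5 H := by
  unfold fin5 at h
  simp only [Bool.and_eq_true, nq_eq, bt_eq] at h
  obtain ⟨⟨⟨⟨⟨⟨⟨⟨⟨⟨⟨⟨⟨⟨⟨⟨⟨⟨⟨⟨⟨⟨⟨⟨b0, b1⟩, b2⟩, b3⟩, b4⟩, n01⟩, n02⟩, n03⟩, n04⟩, n12⟩,
    n13⟩, n14⟩, n23⟩, n24⟩, n34⟩, e01⟩, e02⟩, e03⟩, e04⟩, e12⟩, e13⟩, e14⟩, e23⟩, e24⟩, e34⟩ := h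
  have hb : ∀ i : Fin 5, L.testBit (dig s i) = true := by
    intro i
    fin_cases i
    · exact b0
    · exact b1
    · exact b2
    · exact b3
    · exact b4
  refine ⟨fun i => C (dig s i), fun i => (hL _ (hb i)).2, ?_, ?_⟩
  · intro i j hij
    apply hd _ _ (hb i) (hb j)
    fin_cases i <;> fin_cases j <;> first
      | exact absurd rfl hij
      | assumption
      | (apply Ne.symm; assumption)
  · intro i j hij
    have l : ∀ i : Fin 5, dig s i < 9 := fun i => (hL _ (hb i)).1
    apply hA _ (l i) _ (l j)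
    fin_cases i <;> fin_cases j <;> first
      | assumption
      | exact absurd hij (by decide)

lemma minor_sound : ∀ (q A L s : ℕ) (ty : Bool) (C : ℕ → Set V),
    (∀ i, L.testBit i = true → i < 9 ∧ ConnS H (C i)) →
    (∀ i j, L.testBit i = true → L.testBit j = true → i ≠ j → Disjoint (C i) (C j)) →
    (∀ i < 9, ∀ j < 9, ent A i j = true → AdjS H (C i) (C j)) →
    minor q A L s ty = true → HasK5 H ∨ HasK33 H := by
  intro q
  induction q with
  | zero =>
    intro A L s ty C hL hd hA h
    cases ty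
    · exact Or.inl (fin5_sound hL hd hA h)
    · exact Or.inr (fin33_sound hL hd hA h)
  | succ q ih =>
    intro A L s ty C hL hd hA h
    unfold minor at h
    simp only [Bool.and_eq_true, nq_eq, bt_eq] at h
    obtain ⟨⟨⟨⟨bu, bv⟩, huv⟩, euv⟩, h⟩ := h
    generalize dig s 0 = u at *
    generalize dig s 1 = v at *
    have hu9 := (hL u bu).1
    have hv9 := (hL v bv).1
    classical
    have hL' : ∀ i, (Nat.xor L (Nat.shiftLeft 1 u)).testBit i = true ↔ L.testBit i = true ∧ i ≠ u := by
      intro i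
      change (L ^^^ (1 <<< u)).testBit i = true ↔ _
      rw [Nat.testBit_xor]
      by_cases hiu : i = u
      · subst hiu
        rw [bu]
        simp [Nat.testBit_shiftLeft]
      · have : (1 <<< u : ℕ).testBit i = false := by
          rw [Nat.testBit_shiftLeft]
          by_cases hle : u ≤ i
          · have h0 : i - u ≠ 0 := by omega
            rw [Nat.testBit_lt_two_pow (Nat.one_lt_two_pow h0)]
            simp
          · have : ¬ (i ≥ u) := hle
            simp [this]
        rw [this]
        simp [hiu]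
    have hsub : ∀ i, C i ⊆ Function.update C v (C v ∪ C u) i := by
      intro i
      by_cases hiv : i = v
      · subst hiv
        rw [Function.update_self]
        exact Set.subset_union_left
      · rw [Function.update_of_ne hiv]
    refine ih _ _ _ ty (Function.update C v (C v ∪ C u)) ?_ ?_ ?_ h
    · intro i hi
      rw [hL'] at hi
      refine ⟨(hL i hi.1).1, ?_⟩
      by_cases hiv : i = v
      · subst hiv
        rw [Function.update_self]
        exact (hL i bv).2.union (hL u bu).2 (hA u hu9 i hv9 euv).symm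
      · rw [Function.update_of_ne hiv]
        exact (hL i hi.1).2
    · intro i j hi hj hij
      rw [hL'] at hi hj
      by_cases hiv : i = v
      · subst hiv
        rw [Function.update_self, Function.update_of_ne hij.symm]
        rw [Set.disjoint_union_left]
        exact ⟨hd _ _ bv hj.1 hij, hd _ _ bu hj.1 hj.2.symm⟩
      · rw [Function.update_of_ne hiv]
        by_cases hjv : j = v
        · subst hjv
          rw [Function.update_self, Set.disjoint_union_right]
          exact ⟨hd _ _ hi.1 bv hij, hd _ _ hi.1 bu hi.2⟩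
        · rw [Function.update_of_ne hjv]
          exact hd _ _ hi.1 hj.1 hij
    · intro i hi j hj hent
      rcases ctr_ent hu9 hv9 hi hj hent with h1 | ⟨rfl, h1⟩ | ⟨rfl, h1⟩
      · exact (hA i hi j hj h1).mono (hsub i) (hsub j)
      · refine (hA u hu9 j hj h1).mono ?_ (hsub j)
        rw [Function.update_self]
        exact Set.subset_union_right
      · refine (hA i hi u hu9 h1).mono (hsub i) ?_
        rw [Function.update_self]
        exact Set.subset_union_right

lemma allLt_iff (n : ℕ) (f : ℕ → Bool) : allLt n f = true ↔ ∀ i < n, f i = true := by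
  induction n with
  | zero => simp [allLt]
  | succ n ih =>
    rw [allLt, Bool.and_eq_true, ih]
    constructor
    · rintro ⟨h1, h2⟩ i hi
      rcases Nat.lt_succ_iff_lt_or_eq.1 hi with h | h
      · exact h2 i h
      · rw [h]; exact h1
    · intro h
      exact ⟨h n (Nat.lt_succ_self n), fun i hi => h i (by omega)⟩

/-- the colouring restricted to `φ 0, ..., φ (n - 1)` is the class `R` -/
def Full (R n : ℕ) (H K : SimpleGraph V) (φ : ℕ → V) : Prop :=
  ∀ j < n, ∀ i < j, (ent R i j = true → H.Adj (φ i) (φ j)) ∧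
    (ent R i j = false → K.Adj (φ i) (φ j))

/-- the partial colouring -/
def St (H : SimpleGraph V) (A : ℕ) (φ : ℕ → V) : Prop :=
  ∀ i < 9, ∀ j < 9, ent A i j = true → H.Adj (φ i) (φ j)

lemma iso_sound {n A B R s : ℕ} {φ : ℕ → V} (hA : St H A φ) (hB : St K B φ)
    (h : iso n A B R s = true) : Full R n H K (fun i => φ (dig s i)) := by
  unfold iso at h
  rw [Bool.and_eq_true, allLt_iff, allLt_iff] at h
  obtain ⟨h1, h2⟩ := h
  intro j hj i hij
  have h3 := (allLt_iff _ _).1 (h2 j hj) i hij
  have d : ∀ i < n, dig s i < 9 := by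
    intro i hi
    have := h1 i hi
    rw [Nat.ble_eq] at this
    omega
  constructor
  · intro hR
    rw [hR] at h3
    exact hA _ (d i (by omega)) _ (d j hj) h3
  · intro hR
    rw [hR] at h3
    exact hB _ (d i (by omega)) _ (d j hj) h3

lemma addE_St {A a n : ℕ} {φ : ℕ → V} (ha : a < 9) (hn : n < 9) (hA : St H A φ)
    (h : H.Adj (φ a) (φ n)) : St H (addE A a n) φ := by
  intro i hi j hj hent
  rcases addE_ent ha hn hi hj hent with h1 | ⟨rfl, rfl⟩ | ⟨rfl, rfl⟩
  · exact hA i hi j hj h1
  · exact h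
  · exact h.symm

lemma minor_start {q A n s : ℕ} {ty : Bool} {φ : ℕ → V} (hn : n < 9) (hA : St H A φ)
    (hinj : ∀ i ≤ n, ∀ j ≤ n, φ i = φ j → i = j) (hG : Good H)
    (h : minor q A (Nat.sub (Nat.shiftLeft 1 (Nat.succ n)) 1) s ty = true) : False := by
  have hbit : ∀ i, (Nat.sub (Nat.shiftLeft 1 (Nat.succ n)) 1).testBit i = true → i ≤ n := by
    intro i hi
    by_contra hc
    rw [Nat.testBit_lt_two_pow] at hi
    · exact absurd hi (by decide)
    · have e : Nat.sub (Nat.shiftLeft 1 (Nat.succ n)) 1 = 2 ^ (n + 1) - 1 := by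
        show (1 <<< (n + 1)) - 1 = _
        rw [Nat.shiftLeft_eq, one_mul]
      rw [e]
      have : 2 ^ (n + 1) ≤ 2 ^ i := Nat.pow_le_pow_right (by norm_num) (by omega)
      have h2 : 0 < 2 ^ (n + 1) := by positivity
      omega
  have := minor_sound q A _ s ty (fun i => {φ i}) (H := H) ?_ ?_ ?_ h
  · rcases this with h1 | h1
    · exact hG.1 h1
    · exact hG.2 h1
  · intro i hi
    exact ⟨by have := hbit i hi; omega, connS_singleton H _⟩
  · intro i j hi hj hij
    rw [Set.disjoint_singleton]
    intro he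
    exact hij (hinj i (hbit i hi) j (hbit j hj) he)
  · intro i hi j hj hent
    exact ⟨_, rfl, _, rfl, hA i hi j hj hent⟩

/-- The next level is impossible. -/
def LevelOK (V : Type*) (X N n : ℕ) : Prop :=
  ∀ k < N, ∀ H K : SimpleGraph V, Good H → Good K → (∀ x y, x ≠ y → H.Adj x y ∨ K.Adj x y) →
    ∀ φ : ℕ → V, ¬ Full (Y X k) n H K φ

lemma ev_sound {X N n : ℕ} (hn : n < 9) (hX : LevelOK V X N (n + 1)) (hH : Good H) (hK : Good K)
    (hcov : ∀ x y, x ≠ y → H.Adj x y ∨ K.Adj x y) {φ : ℕ → V}
    (hinj : ∀ i ≤ n, ∀ j ≤ n, φ i = φ j → i = j) :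
    ∀ (f A B s r : ℕ), ev X N n f A B s = some r → St H A φ → St K B φ → False := by
  intro f
  induction f with
  | zero =>
    intro A B s r h
    simp [ev] at h
  | succ f ih =>
    intro A B s r h hA hB
    unfold ev at h
    split at h
    · -- node
      split at h
      · exact absurd h (by simp)
      · rename_i hb
        have hlt : dig s 1 < n := by
          rw [Nat.blt_eq] at hb
          exact hb
        split at h
        · exact absurd h (by simp)
        · rename_i r' hr'
          have hne : φ (dig s 1) ≠ φ n := by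
            intro he
            have := hinj _ (by omega) _ (le_refl n) he
            omega
          rcases hcov _ _ hne with h1 | h1
          · exact ih _ _ _ _ hr' (addE_St (by omega) hn hA h1) hB
          · exact ih _ _ _ _ h hA (addE_St (by omega) hn hB h1)
    · split at h
      · exact absurd h (by simp)
      · rename_i hm
        exact minor_start hn hA hinj hH hm
    · split at h
      · exact absurd h (by simp)
      · rename_i hm
        exact minor_start hn hA hinj hH hm
    · split at h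
      · exact absurd h (by simp)
      · rename_i hm
        exact minor_start hn hB hinj hK hm
    · split at h
      · exact absurd h (by simp)
      · rename_i hm
        exact minor_start hn hB hinj hK hm
    · split at h
      · exact absurd h (by simp)
      · rename_i hm
        rw [Bool.and_eq_true, Nat.blt_eq] at hm
        exact hX _ hm.1 H K hH hK hcov _ (iso_sound hA hB hm.2)
    · split at h
      · exact absurd h (by simp)
      · rename_i hm
        rw [Bool.and_eq_true, Nat.blt_eq] at hm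
        exact hX _ hm.1 K H hK hH (fun x y hxy => (hcov x y hxy).symm) _ (iso_sound hB hA hm.2)
    · exact absurd h (by simp)

end Pool.Agent.X64.K9
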