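import Pool.Agent.X64.K9.K33
import Pool.Agent.X64.K9.Check

set_option autoImplicit false

namespace Pool.Agent.X64.K9

variable {V : Type*}

/-- `H` has a drawing in which vertex-disjoint edges have disjoint arcs and arcs avoid the other
vertices. -/
def PD (H : SimpleGraph V) : Prop :=
  ∃ p : V → ℂ, Function.Injective p ∧ ∃ S : V → V → Set ℂ,
    (∀ u v, H.Adj u v → JoinedIn (S u v) (p u) (p v)) ∧
    (∀ u v x y, H.Adj u v → H.Adj x y → u ≠ x → u ≠ y → v ≠ x → v ≠ y →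
      Disjoint (S u v) (S x y)) ∧
    (∀ u v w, H.Adj u v → w ≠ u → w ≠ v → p w ∉ S u v)

/-- the drawn part of `C` -/
def T (H : SimpleGraph V) (p : V → ℂ) (S : V → V → Set ℂ) (C : Set V) : Set ℂ :=
  p '' C ∪ {z | ∃ u ∈ C, ∃ v ∈ C, H.Adj u v ∧ z ∈ S u v}

lemma T_mono {H : SimpleGraph V} {p : V → ℂ} {S : V → V → Set ℂ} {C D : Set V} (h : C ⊆ D) :
    T H p S C ⊆ T H p S D := by
  rintro z (⟨x, hx, rfl⟩ | ⟨u, hu, v, hv, huv, hz⟩)
  · exact Or.inl ⟨x, h hx, rfl⟩
  · exact Or.inr ⟨u, h hu, v, h hv, huv, hz⟩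

lemma joined_T {H : SimpleGraph V} {p : V → ℂ} {S : V → V → Set ℂ}
    (hj : ∀ u v, H.Adj u v → JoinedIn (S u v) (p u) (p v)) {C : Set V} (hC : ConnS H C)
    {x y : V} (hx : x ∈ C) (hy : y ∈ C) : JoinedIn (T H p S C) (p x) (p y) := by
  have h := hC.2 x hx y hy
  induction h with
  | refl => exact JoinedIn.refl (Or.inl ⟨x, hx, rfl⟩)
  | tail _ h2 ih =>
    rename_i b c _
    refine (ih h2.1).trans ((hj b c h2.2.2).mono ?_)
    intro z hz
    exact Or.inr ⟨b, h2.1, c, h2.2.1, h2.2.2, hz⟩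

lemma disj_T {H : SimpleGraph V} {p : V → ℂ} {S : V → V → Set ℂ} (hp : Function.Injective p)
    (hd : ∀ u v x y, H.Adj u v → H.Adj x y → u ≠ x → u ≠ y → v ≠ x → v ≠ y →
      Disjoint (S u v) (S x y))
    (ha : ∀ u v w, H.Adj u v → w ≠ u → w ≠ v → p w ∉ S u v) {C D : Set V} (h : Disjoint C D) :
    Disjoint (T H p S C) (T H p S D) := by
  have hne : ∀ x ∈ C, ∀ y ∈ D, x ≠ y := by
    rintro x hx y hy rfl
    exact Set.disjoint_left.1 h hx hy
  rw [Set.disjoint_left]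
  rintro z (⟨x, hx, rfl⟩ | ⟨u, hu, v, hv, huv, hz⟩) (⟨y, hy, hxy⟩ | ⟨u', hu', v', hv', huv', hz'⟩)
  · exact hne x hx y hy (hp hxy.symm)
  · exact ha u' v' x huv' (hne x hx u' hu') (hne x hx v' hv') hz'
  · subst hxy
    exact ha u v y huv (hne u hu y hy).symm (hne v hv y hy).symm hz
  · exact Set.disjoint_left.1 (hd u v u' v' huv huv' (hne u hu u' hu') (hne u hu v' hv')
      (hne v hv u' hu') (hne v hv v' hv')) hz hz'

theorem good_of_PD {H : SimpleGraph V} (h : PD H) : Good H := by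
  obtain ⟨p, hp, S, hj, hd, ha⟩ := h
  constructor
  · rintro ⟨C, hC, hdis, hadj⟩
    choose r hr using fun i => (hC i).1
    refine Pool.Agent.Helper770.VanKampen.k5_joined (fun i => p (r i))
      (fun a b => T H p S (C a ∪ C b)) ?_ ?_
    · intro a b hab
      exact joined_T hj ((hC a).union (hC b) (hadj a b hab)) (Or.inl (hr a)) (Or.inr (hr b))
    · intro a b c d _ _ hac had hbc hbd
      apply disj_T hp hd ha
      rw [Set.disjoint_union_left, Set.disjoint_union_right, Set.disjoint_union_right]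
      exact ⟨⟨hdis a c hac, hdis a d had⟩, ⟨hdis b c hbc, hdis b d hbd⟩⟩
  · rintro ⟨C, hC, hdis, hadj⟩
    choose r hr using fun i => (hC i).1
    refine k33_joined (fun i => p (r i)) (fun a b => T H p S (C a ∪ C b)) ?_ ?_
    · intro a b ha' hb'
      exact joined_T hj ((hC a).union (hC b) (hadj a b ha' hb')) (Or.inl (hr a)) (Or.inr (hr b))
    · intro a b c d h1 h2 h3 h4 hac hbd
      have hne : ∀ x y : Fin 6, x < 3 → 3 ≤ y → x ≠ y := fun x y hx hy =>
        (lt_of_lt_of_le hx hy).ne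
      apply disj_T hp hd ha
      rw [Set.disjoint_union_left, Set.disjoint_union_right, Set.disjoint_union_right]
      exact ⟨⟨hdis a c hac, hdis a d (hne a d h1 h4)⟩,
        ⟨hdis b c (hne c b h3 h2).symm, hdis b d hbd⟩⟩

lemma PD.iso {W : Type*} {H : SimpleGraph V} {K : SimpleGraph W} (e : H ≃g K) (h : PD K) :
    PD H := by
  obtain ⟨p, hp, S, hj, hd, ha⟩ := h
  refine ⟨fun v => p (e v), hp.comp e.injective, fun u v => S (e u) (e v), ?_, ?_, ?_⟩
  · intro u v huv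
    exact hj _ _ (e.map_adj_iff.2 huv)
  · intro u v x y huv hxy h1 h2 h3 h4
    exact hd _ _ _ _ (e.map_adj_iff.2 huv) (e.map_adj_iff.2 hxy) (e.injective.ne h1)
      (e.injective.ne h2) (e.injective.ne h3) (e.injective.ne h4)
  · intro u v w huv h1 h2
    exact ha _ _ _ (e.map_adj_iff.2 huv) (e.injective.ne h1) (e.injective.ne h2)

end Pool.Agent.X64.K9
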